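import Mathlib
import Pool.Agent.N979.MH.Stm

/-!
Project MH, module EST: elementary facts on the parameters and the time profiles.
-/

open MeasureTheory Set Filter Topology
open scoped InnerProductSpace ENNReal ContDiff

namespace N273.MH

open H772R2.NS N979MH

variable (P : Par)

theorem r_pos (j : ℕ) : 0 < P.r j := div_pos P.hr (by positivity)

theorem r_le_one (j : ℕ) : P.r j ≤ 1 := by
  have h1 : P.r0 ≤ 1 := by have := P.hrd; have := P.hd1; have := P.hr; linarith
  unfold Par.r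
  rw [div_le_one (by positivity)]
  exact h1.trans (one_le_pow₀ (by norm_num))

theorem k_pos (j : ℕ) : 0 < P.k j := Nat.mul_pos P.hk (by positivity)

theorem kr_pos (j : ℕ) : (0 : ℝ) < (P.k j : ℝ) := by exact_mod_cast k_pos P j

theorem phie_pos : 0 < phie := by unfold phie; positivity

theorem A_pos (j : ℕ) : 0 < P.A j := by
  unfold Par.A
  have := r_pos P j
  have := kr_pos P j
  have := phie_pos
  positivity

theorem A_succ (j : ℕ) : P.A (j + 1) = P.A j / 64 := by
  unfold Par.A Par.r Par.k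
  have := P.hk
  have h : (P.k0 : ℝ) ≠ 0 := by positivity
  push_cast
  field_simp
  ring

theorem dA_eq (j : ℕ) : P.dA j = 63 / 64 * P.A j := by
  unfold Par.dA; rw [A_succ]; ring

theorem dA_pos (j : ℕ) : 0 < P.dA j := by
  rw [dA_eq]; have := A_pos P j; positivity

theorem t_zero : P.t 0 = P.T := by simp [Par.t]

theorem t_pos (j : ℕ) : 0 < P.t j := by
  unfold Par.t; have := P.hT; positivity

theorem t_anti {i j : ℕ} (h : i ≤ j) : P.t j ≤ P.t i := by
  unfold Par.t
  refine mul_le_mul_of_nonneg_left ?_ P.hT.le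
  exact pow_le_pow_of_le_one (by norm_num) (by norm_num) h

theorem t_le_T (j : ℕ) : P.t j ≤ P.T := by
  rw [← t_zero P]; exact t_anti P (Nat.zero_le j)

theorem dl_eq (j : ℕ) : P.dl j = P.t j / 4 := by
  unfold Par.dl Par.t
  rw [pow_succ]; ring

theorem dl_pos (j : ℕ) : 0 < P.dl j := by
  rw [dl_eq]; have := t_pos P j; positivity

theorem arg_le_zero {j : ℕ} {s : ℝ} (h : s ≤ P.t (j + 1)) : (s - P.t (j + 1)) / P.dl j ≤ 0 :=
  div_nonpos_of_nonpos_of_nonneg (by linarith) (dl_pos P j).le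

theorem one_le_arg {j : ℕ} {s : ℝ} (h : P.t j ≤ s) : 1 ≤ (s - P.t (j + 1)) / P.dl j := by
  rw [le_div_iff₀ (dl_pos P j)]
  unfold Par.dl
  linarith

theorem outside_stage {i j : ℕ} (hij : i ≠ j) {s : ℝ} (hs : s ∈ Icc (P.t (j + 1)) (P.t j)) :
    s ≤ P.t (i + 1) ∨ P.t i ≤ s := by
  rcases lt_or_gt_of_ne hij with h | h
  · left
    exact hs.2.trans (t_anti P h)
  · right
    exact (t_anti P h).trans hs.1

theorem deriv_bump_of_le (hb : StmBump) {s : ℝ} (hs : s ≤ 0) : deriv bump s = 0 := by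
  have h1 : HasDerivAt bump (deriv bump s) s := (hb.1.differentiable (by simp) s).hasDerivAt
  have h2 : HasDerivWithinAt bump 0 (Iic s) s := by
    refine (hasDerivWithinAt_const s (Iic s) (0 : ℝ)).congr (fun y hy => ?_) ?_
    · exact hb.2.2.2.1 y (le_trans hy hs)
    · exact hb.2.2.2.1 s hs
  exact (uniqueDiffWithinAt_Iic s).eq_deriv _ h1.hasDerivWithinAt h2

theorem deriv_bump_of_ge (hb : StmBump) {s : ℝ} (hs : 1 ≤ s) : deriv bump s = 0 := by
  have h1 : HasDerivAt bump (deriv bump s) s := (hb.1.differentiable (by simp) s).hasDerivAt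
  have h2 : HasDerivWithinAt bump 0 (Ici s) s := by
    refine (hasDerivWithinAt_const s (Ici s) (0 : ℝ)).congr (fun y hy => ?_) ?_
    · exact hb.2.2.2.2.1 y (le_trans hs hy)
    · exact hb.2.2.2.2.1 s hs
  exact (uniqueDiffWithinAt_Ici s).eq_deriv _ h1.hasDerivWithinAt h2

/-- the derivative of `F j` -/
noncomputable def F' (j : ℕ) (s : ℝ) : ℝ :=
  P.dA j / P.dl j * (deriv bump ((s - P.t (j + 1)) / P.dl j) * (1 / P.dl j))

theorem hasDerivAt_F (hb : StmBump) (j : ℕ) (s : ℝ) : HasDerivAt (P.F j) (F' P j s) s := by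
  unfold F'
  have h1 : HasDerivAt bump (deriv bump ((s - P.t (j + 1)) / P.dl j))
      ((s - P.t (j + 1)) / P.dl j) := (hb.1.differentiable (by simp) _).hasDerivAt
  have h2 : HasDerivAt (fun s : ℝ => (s - P.t (j + 1)) / P.dl j) (1 / P.dl j) s :=
    ((hasDerivAt_id s).sub_const _).div_const _
  exact (h1.comp s h2).const_mul _

theorem continuous_F' (hb : StmBump) (j : ℕ) : Continuous (F' P j) := by
  unfold F'
  have h1 : Continuous (deriv bump) := hb.1.continuous_deriv (by simp)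
  fun_prop

theorem continuous_F (hb : StmBump) (j : ℕ) : Continuous (P.F j) :=
  continuous_iff_continuousAt.mpr fun s => (hasDerivAt_F P hb j s).continuousAt

theorem F_nonneg (hb : StmBump) (j : ℕ) (s : ℝ) : 0 ≤ P.F j s :=
  mul_nonneg (div_nonneg (dA_pos P j).le (dl_pos P j).le) (hb.2.1 _)

theorem F_zero (hb : StmBump) {j : ℕ} {s : ℝ} (h : s ≤ P.t (j + 1) ∨ P.t j ≤ s) :
    P.F j s = 0 := by
  unfold Par.F
  rcases h with h | h
  · rw [hb.2.2.2.1 _ (arg_le_zero P h), mul_zero]
  · rw [hb.2.2.2.2.1 _ (one_le_arg P h), mul_zero]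

theorem F'_zero (hb : StmBump) {j : ℕ} {s : ℝ} (h : s ≤ P.t (j + 1) ∨ P.t j ≤ s) :
    F' P j s = 0 := by
  unfold F'
  rcases h with h | h
  · rw [deriv_bump_of_le hb (arg_le_zero P h)]; ring
  · rw [deriv_bump_of_ge hb (one_le_arg P h)]; ring

theorem abs_F'_le (hb : StmBump) (j : ℕ) (s : ℝ) : |F' P j s| ≤ 6 * (P.dA j / P.dl j ^ 2) := by
  unfold F'
  have h1 := hb.2.2.2.2.2.1 ((s - P.t (j + 1)) / P.dl j)
  have h2 := dA_pos P j
  have h3 := dl_pos P j
  rw [abs_mul, abs_mul, abs_of_pos (div_pos h2 h3), abs_of_pos (div_pos one_pos h3)]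
  calc P.dA j / P.dl j * (|deriv bump ((s - P.t (j + 1)) / P.dl j)| * (1 / P.dl j))
      ≤ P.dA j / P.dl j * (6 * (1 / P.dl j)) := by gcongr
    _ = 6 * (P.dA j / P.dl j ^ 2) := by field_simp

theorem integral_F (hb : StmBump) (j : ℕ) : ∫ s in P.t (j + 1)..P.t j, P.F j s = P.dA j := by
  have h1 : ∀ s ∈ uIcc (P.t (j + 1)) (P.t j), HasDerivAt (P.Phi j) (P.F j s) s := by
    intro s _
    have h1 : HasDerivAt bumpI (bump ((s - P.t (j + 1)) / P.dl j))
        ((s - P.t (j + 1)) / P.dl j) := hb.2.2.2.2.2.2.2.2.2.2.1 _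
    have h2 : HasDerivAt (fun s : ℝ => (s - P.t (j + 1)) / P.dl j) (1 / P.dl j) s :=
      ((hasDerivAt_id s).sub_const _).div_const _
    have h3 := (h1.comp s h2).const_mul (P.dA j)
    have h4 : P.F j s = P.dA j * (bump ((s - P.t (j + 1)) / P.dl j) * (1 / P.dl j)) := by
      unfold Par.F
      ring
    rw [h4]
    exact h3
  rw [intervalIntegral.integral_eq_sub_of_hasDerivAt h1
    ((continuous_F P hb j).intervalIntegrable _ _)]
  unfold Par.Phi
  rw [hb.2.2.2.2.2.2.2.1 _ (one_le_arg P le_rfl), hb.2.2.2.2.2.2.1 _ (arg_le_zero P le_rfl)]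
  ring

/-- the main flow in stage `j`. -/
theorem us_stage (hb : StmBump) {σ : ℝ} {j J : ℕ} (hj : j < J) {s : ℝ}
    (hs : s ∈ Icc (P.t (j + 1)) (P.t j)) (x : E3) :
    P.us σ J s x = (σ * P.F j s) • P.W j x := by
  unfold Par.us
  rw [Finset.sum_eq_single_of_mem j (Finset.mem_range.mpr hj), smul_smul]
  intro i _ hij
  rw [F_zero P hb (outside_stage P hij hs), zero_smul]

/-! ### the density -/

theorem continuous_zc : Continuous zc := by
  have h : zc = fun x : E3 => (x 0 : ℂ) + (x 1 : ℂ) * Complex.I := by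
    funext x
    unfold zc
    apply Complex.ext <;> simp
  rw [h]
  fun_prop

theorem measurable_uz : Measurable uz := by
  unfold uz
  have h1 : Measurable zc := continuous_zc.measurable
  have h2 : Measurable fun x : E3 => (‖zc x‖ : ℂ) := by fun_prop
  exact h1.div h2

theorem measurableSet_shell (j : ℕ) : MeasurableSet (P.shell j) := by
  unfold Par.shell
  have h1 : Measurable fun x : E3 => ‖x‖ ^ 2 := by fun_prop
  exact (measurableSet_lt measurable_const h1).inter (measurableSet_lt h1 measurable_const)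

theorem measurable_a (σ : ℝ) (J : ℕ) : Measurable (P.a σ J) := by
  classical
  unfold Par.a
  have hset : MeasurableSet {x : E3 | ∃ j, x ∈ P.shell j ∧ 0 < (uz x ^ P.k j *
      Complex.exp (((-(σ * P.k j * (if j < J then P.A J / (3 * ‖x‖ ^ 3) else 0)) : ℝ) : ℂ)
        * Complex.I)).re} := by
    have : {x : E3 | ∃ j, x ∈ P.shell j ∧ 0 < (uz x ^ P.k j *
      Complex.exp (((-(σ * P.k j * (if j < J then P.A J / (3 * ‖x‖ ^ 3) else 0)) : ℝ) : ℂ)
        * Complex.I)).re} = ⋃ j, (P.shell j ∩ {x | 0 < (uz x ^ P.k j *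
      Complex.exp (((-(σ * P.k j * (if j < J then P.A J / (3 * ‖x‖ ^ 3) else 0)) : ℝ) : ℂ)
        * Complex.I)).re}) := by
      ext x; simp
    rw [this]
    refine MeasurableSet.iUnion fun j => (measurableSet_shell P j).inter ?_
    have h1 : Measurable uz := measurable_uz
    have h2 : Measurable fun x : E3 =>
        ((-(σ * P.k j * (if j < J then P.A J / (3 * ‖x‖ ^ 3) else 0)) : ℝ) : ℂ) := by
      split_ifs <;> fun_prop
    refine measurableSet_lt measurable_const ?_
    exact Complex.measurable_re.comp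
      ((h1.pow_const _).mul (Complex.measurable_exp.comp (h2.mul_const _)))
  exact Measurable.ite hset measurable_const measurable_const

theorem a_bounds (σ : ℝ) (J : ℕ) (x : E3) : 1 ≤ P.a σ J x ∧ P.a σ J x ≤ 2 := by
  unfold Par.a
  split_ifs <;> norm_num

end N273.MH
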