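import Mathlib
import Pool.Agent.N273.MH.Basics

/-!
Project MH, module EST: finite dimensional spaces of test fields.
-/

open MeasureTheory Set Filter Topology
open scoped InnerProductSpace ENNReal ContDiff

namespace N273.MH

open H772R2.NS N979MH

variable {Ω : Set E3} {N : ℕ} {φ : Fin N → E3 → E3}

theorem fld_add (c d : Fin N → ℝ) (x : E3) : fld φ (c + d) x = fld φ c x + fld φ d x := by
  unfold fld
  simp [add_smul, Finset.sum_add_distrib]

theorem fld_smul (r : ℝ) (c : Fin N → ℝ) (x : E3) : fld φ (r • c) x = r • fld φ c x := by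
  unfold fld
  simp [Finset.smul_sum, smul_smul]

theorem fld_sub (c d : Fin N → ℝ) (x : E3) : fld φ (c - d) x = fld φ c x - fld φ d x := by
  unfold fld
  simp [sub_smul, Finset.sum_sub_distrib]

theorem fld_zero (x : E3) : fld φ 0 x = 0 := by
  unfold fld; simp

theorem isTest_sum {ι : Type*} (s : Finset ι) (v : ι → E3 → E3) (h : ∀ k ∈ s, IsTest Ω (v k)) :
    IsTest Ω (∑ k ∈ s, v k) := by
  classical
  induction s using Finset.induction_on with
  | empty => simpa using IsTest.zero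
  | insert a s ha ih =>
    rw [Finset.sum_insert ha]
    exact (h a (Finset.mem_insert_self _ _)).add
      (ih fun k hk => h k (Finset.mem_insert_of_mem hk))

theorem fld_eq_sum (c : Fin N → ℝ) : fld φ c = ∑ k, c k • φ k := by
  funext x
  unfold fld
  simp

theorem isTest_fld (h : ∀ k, IsTest Ω (φ k)) (c : Fin N → ℝ) : IsTest Ω (fld φ c) := by
  rw [fld_eq_sum]
  exact isTest_sum _ _ fun k _ => (h k).smul (c k)

theorem jac_sum' {ι : Type*} (s : Finset ι) (v : ι → E3 → E3) (h : ∀ k ∈ s, ContDiff ℝ ∞ (v k))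
    (x : E3) : jac (∑ k ∈ s, v k) x = ∑ k ∈ s, jac (v k) x := by
  classical
  induction s using Finset.induction_on with
  | empty => simp [jac_zero]
  | insert a s ha ih =>
    rw [Finset.sum_insert ha, Finset.sum_insert ha, jac_add (h a (Finset.mem_insert_self _ _)) _,
      ih fun k hk => h k (Finset.mem_insert_of_mem hk)]
    have := ContDiff.sum fun k hk => h k (Finset.mem_insert_of_mem hk)
    convert this using 1
    funext x
    simp

theorem jac_fld (h : ∀ k, IsTest Ω (φ k)) (c : Fin N → ℝ) (x : E3) :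
    jac (fld φ c) x = ∑ k, c k • jac (φ k) x := by
  rw [fld_eq_sum, jac_sum' _ _ fun k _ => ((h k).smul (c k)).smooth]
  simp [jac_smul]

theorem integrable_inner_jac {v w : E3 → E3} (hv : IsTest Ω v) (hw : IsTest Ω w) :
    Integrable fun x => ⟪jac v x, jac w x⟫_ℝ := by
  have h : Continuous fun x => ⟪jac v x, jac w x⟫_ℝ :=
    (continuous_jac hv.smooth).inner (continuous_jac hw.smooth)
  refine h.integrable_of_hasCompactSupport ?_
  refine (hasCompactSupport_jac hv.compact).mono fun x hx => ?_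
  intro h0
  apply hx
  simp only [h0, inner_zero_left]

theorem integral_inner_fld_left (h : ∀ k, IsTest Ω (φ k)) {w : E3 → E3} (hw : IsTest Ω w)
    (c : Fin N → ℝ) :
    ∫ x, ⟪jac (fld φ c) x, jac w x⟫_ℝ = ∑ k, c k * ∫ x, ⟪jac (φ k) x, jac w x⟫_ℝ := by
  have h1 : ∀ x, ⟪jac (fld φ c) x, jac w x⟫_ℝ = ∑ k, c k * ⟪jac (φ k) x, jac w x⟫_ℝ := by
    intro x
    rw [jac_fld h, sum_inner]
    simp [inner_smul_left]
  simp only [h1]
  rw [integral_finsetSum _ fun k _ => (integrable_inner_jac (h k) hw).const_mul _]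
  simp [integral_const_mul]

theorem continuous_inner_fld (h : ∀ k, IsTest Ω (φ k)) {w : E3 → E3} (hw : IsTest Ω w)
    {c : ℝ → Fin N → ℝ} (hc : Continuous c) :
    Continuous fun s => ∫ x, ⟪jac (fld φ (c s)) x, jac w x⟫_ℝ := by
  simp only [integral_inner_fld_left h hw]
  fun_prop

theorem integral_comm_inner (v w : E3 → E3) :
    ∫ x, ⟪jac v x, jac w x⟫_ℝ = ∫ x, ⟪jac w x, jac v x⟫_ℝ := by
  congr 1
  funext x
  rw [real_inner_comm]

theorem nM_sq (z : E3 → M3) : nM z ^ 2 = ∫ x, ‖z x‖ ^ 2 := by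
  unfold nM
  rw [Real.sq_sqrt]
  positivity

theorem nM_nonneg (z : E3 → M3) : 0 ≤ nM z := Real.sqrt_nonneg _

theorem nV_nonneg (z : E3 → E3) : 0 ≤ nV z := Real.sqrt_nonneg _

theorem nM_jac_eq (v : E3 → E3) : nM (jac v) = Real.sqrt (∫ x, ⟪jac v x, jac v x⟫_ℝ) := by
  unfold nM
  congr 2
  funext x
  rw [real_inner_self_eq_norm_sq]

theorem continuous_nM_fld (h : ∀ k, IsTest Ω (φ k)) {c : ℝ → Fin N → ℝ} (hc : Continuous c) :
    Continuous fun s => nM (jac (fld φ (c s))) := by
  simp only [nM_jac_eq]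
  refine Real.continuous_sqrt.comp ?_
  have h1 : ∀ s, ∫ x, ⟪jac (fld φ (c s)) x, jac (fld φ (c s)) x⟫_ℝ
      = ∑ k, c s k * ∑ l, c s l * ∫ x, ⟪jac (φ l) x, jac (φ k) x⟫_ℝ := by
    intro s
    rw [integral_inner_fld_left h (isTest_fld h _)]
    congr 1
    funext k
    rw [integral_comm_inner, integral_inner_fld_left h (h k)]
  simp only [h1]
  fun_prop

/-- Cauchy-Schwarz -/
theorem abs_integral_inner_le {v w : E3 → E3} (hv : IsTest Ω v) (hw : IsTest Ω w) :
    |∫ x, ⟪jac v x, jac w x⟫_ℝ| ≤ nM (jac v) * nM (jac w) := by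
  have h1 := hv.jac_memLp 2
  have h2 := hw.jac_memLp 2
  have h3 : ∫ x, ⟪jac v x, jac w x⟫_ℝ = ⟪h1.toLp _, h2.toLp _⟫_ℝ := by
    rw [MeasureTheory.L2.inner_def]
    refine integral_congr_ae ?_
    filter_upwards [h1.coeFn_toLp, h2.coeFn_toLp] with x e1 e2
    rw [e1, e2]
  have h4 : ∀ {v : E3 → E3} (h1 : MemLp (jac v) 2 (volume : Measure E3)),
      ‖h1.toLp _‖ = nM (jac v) := by
    intro v h1
    rw [nM_jac_eq, norm_eq_sqrt_real_inner, MeasureTheory.L2.inner_def]
    congr 1
    refine integral_congr_ae ?_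
    filter_upwards [h1.coeFn_toLp] with x e1
    rw [e1]
  rw [h3, ← h4 h1, ← h4 h2]
  exact abs_real_inner_le_norm _ _

/-! ### the sources -/

theorem continuous_lam : Continuous lam := by
  unfold lam
  refine (PiLp.continuous_toLp 2 _).comp ?_
  refine continuous_pi fun i => ?_
  fin_cases i <;> simp <;> fun_prop

theorem continuous_g (h : StmProf) (P : Par) (j : ℕ) : Continuous (P.g j) := by
  unfold Par.g
  have h1 : Continuous hh := h.2.2.1.continuous
  have h2 := continuous_lam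
  fun_prop

theorem continuous_Gf : Continuous Gf := by
  unfold Gf
  fun_prop

theorem norm_uz_le (x : E3) : ‖uz x‖ ≤ 1 := by
  unfold uz
  rw [norm_div, Complex.norm_real, norm_norm]
  exact div_self_le_one _

theorem abs_Gf_le {y : ℝ} (hy : |y| ≤ 1) : |Gf y| ≤ 4 := by
  unfold Gf
  have h1 : |gc| ≤ 1 := Real.abs_cos_le_one _
  have h2 := abs_le.mp hy
  have h3 := abs_le.mp h1
  rw [abs_le]
  constructor
  · have h4 : (0 : ℝ) ≤ max (y - gc) 0 := le_max_right _ _
    have h5 : -2 ≤ min (y + gc) 0 := le_min (by linarith) (by norm_num)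
    linarith
  · have h4 : max (y - gc) 0 ≤ 2 := max_le (by linarith) (by norm_num)
    have h5 : min (y + gc) 0 ≤ 0 := min_le_right _ _
    linarith

/-- the scalar factor of `bs`. -/
noncomputable def mfac (P : Par) (σ : ℝ) (j : ℕ) (x : E3) : ℝ :=
  (if 0 < σ * (uz x ^ P.k j).im then (2 : ℝ) else 1) * (Gm⁻¹ * Gf ((uz x ^ P.k j).im))

theorem bs_eq (P : Par) (σ : ℝ) (j : ℕ) (x : E3) : P.bs σ j x = mfac P σ j x • P.g j x := by
  unfold Par.bs Par.fs mfac
  rw [smul_smul]

theorem measurable_mfac (P : Par) (σ : ℝ) (j : ℕ) : Measurable (mfac P σ j) := by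
  unfold mfac
  have h1 : Measurable fun x => (uz x ^ P.k j).im :=
    Complex.measurable_im.comp (measurable_uz.pow_const _)
  have h2 : Measurable Gf := continuous_Gf.measurable
  refine Measurable.mul ?_ ((h2.comp h1).const_mul _)
  exact Measurable.ite (measurableSet_lt measurable_const (h1.const_mul _)) measurable_const
    measurable_const

theorem abs_mfac_le (P : Par) (σ : ℝ) (j : ℕ) (x : E3) : |mfac P σ j x| ≤ 2 * (|Gm⁻¹| * 4) := by
  unfold mfac
  rw [abs_mul, abs_mul]
  have h0 : |(uz x ^ P.k j).im| ≤ 1 := by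
    refine (Complex.abs_im_le_norm _).trans ?_
    rw [norm_pow]
    exact pow_le_one₀ (norm_nonneg _) (norm_uz_le x)
  have h1 : |if 0 < σ * (uz x ^ P.k j).im then (2 : ℝ) else 1| ≤ 2 := by
    split_ifs <;> norm_num
  have h2 := abs_Gf_le h0
  gcongr

theorem integrable_g (h : StmProf) (P : Par) (j : ℕ) {w : E3 → E3} (hw : IsTest Ω w) :
    Integrable fun x => ⟪P.g j x, w x⟫_ℝ := by
  have h1 : Continuous fun x => ⟪P.g j x, w x⟫_ℝ :=
    (continuous_g h P j).inner hw.smooth.continuous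
  refine h1.integrable_of_hasCompactSupport ?_
  refine hw.compact.mono fun x hx => ?_
  intro h0
  apply hx
  simp only [h0, inner_zero_right]

theorem integrable_bs (h : StmProf) (P : Par) (σ : ℝ) (j : ℕ) {w : E3 → E3} (hw : IsTest Ω w) :
    Integrable fun x => ⟪P.bs σ j x, w x⟫_ℝ := by
  have h1 : (fun x => ⟪P.bs σ j x, w x⟫_ℝ) = fun x => mfac P σ j x * ⟪P.g j x, w x⟫_ℝ := by
    funext x
    rw [bs_eq, real_inner_smul_left]
  rw [h1]
  exact (integrable_g h P j hw).bdd_mul (measurable_mfac P σ j).aestronglyMeasurable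
    (Eventually.of_forall fun x => by rw [Real.norm_eq_abs]; exact abs_mfac_le P σ j x)

theorem source_split (h : StmProf) (P : Par) (σ : ℝ) (j : ℕ) {w : E3 → E3} (hw : IsTest Ω w) :
    ∫ x, ⟪P.bs σ j x - σ • P.g j x, w x⟫_ℝ
      = (∫ x, ⟪P.bs σ j x, w x⟫_ℝ) - σ * ∫ x, ⟪P.g j x, w x⟫_ℝ := by
  rw [← integral_const_mul, ← integral_sub (integrable_bs h P σ j hw)
    ((integrable_g h P j hw).const_mul σ)]
  congr 1
  funext x
  rw [inner_sub_left, real_inner_smul_left]

end N273.MH
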