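import Mathlib
import Pool.Agent.N273.MH.Fields

/-!
Project MH, module EST: collecting the error terms.
-/

open MeasureTheory Set Filter Topology
open scoped InnerProductSpace ENNReal ContDiff

namespace N273.MH

open H772R2.NS N979MH

theorem collect {n nv F F' r k q I1 Ig I2 Ib I3 m x CW CP C1 C2 C4 cs σ e : ℝ}
    {R32 R52 Rh R72 R3 r32 : ℝ}
    (hn : 0 ≤ n) (hnv0 : nv ≤ CP * n) (hF : 0 ≤ F) (hr : 0 < r) (hr1 : r ≤ 1) (hk : 0 < k)
    (hq : 0 ≤ q) (hm : 0 ≤ m) (hx : 0 ≤ x)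
    (hCW : 0 < CW) (hCP : 0 < CP) (hC1 : 0 < C1) (hC2 : 0 < C2) (hC4 : 0 < C4) (hcs : 0 ≤ cs)
    (hσ : σ = 1 ∨ σ = -1)
    (p32 : 0 < R32) (ph : 0 < Rh) (p72 : 0 < R72) (p3 : 0 < R3) (pr : 0 < r32)
    (e52 : R52 = R32 * r⁻¹) (e32 : R32 * r32 = 1)
    (b1 : |I1 - Ig| ≤ CW * nv)
    (b2 : |I2 - Ib| ≤ C2 * R32 * (m + cs * x) * n)
    (b3 : |Ib - σ * Ig| ≤ C1 / k * (R52 * nv + R32 * n))
    (b4 : |I3| ≤ C4 * (|F'| * Rh + F ^ 2 * R72) * n + C4 * |F| * R3 * n ^ 2)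
    (b5 : |F'| ≤ 6 * q)
    (he : e = - n ^ 2 - σ * F * I1 + F * I2 - I3) :
    e ≤ - n ^ 2
      + (C2 * (1 + cs) + C1 * (CP + 1) + CW * CP + 6 * C4) * F * R32
        * ((k * r)⁻¹ + r32 + m + x) * n
      + (C2 * (1 + cs) + C1 * (CP + 1) + CW * CP + 6 * C4) * (q * Rh + F ^ 2 * R72) * n
      + (C2 * (1 + cs) + C1 * (CP + 1) + CW * CP + 6 * C4) * F * R3 * n ^ 2 := by
  set C := C2 * (1 + cs) + C1 * (CP + 1) + CW * CP + 6 * C4 with hC
  have hC0 : 0 < C := by positivity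
  have hkr : 0 < (k * r)⁻¹ := by positivity
  -- term 1
  have t1 : |I2 - Ib| ≤ C2 * (1 + cs) * R32 * (m + x) * n := by
    refine b2.trans ?_
    have : C2 * R32 * (m + cs * x) * n ≤ C2 * R32 * ((1 + cs) * (m + x)) * n := by
      gcongr
      nlinarith [mul_nonneg hcs hm]
    linarith
  have t2 : |Ib - σ * Ig| ≤ C1 * (CP + 1) * R32 * (k * r)⁻¹ * n := by
    refine b3.trans ?_
    have h1 : R52 * nv + R32 * n ≤ (CP + 1) * (R32 * r⁻¹) * n := by
      have h2 : R52 * nv ≤ R52 * (CP * n) := by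
        refine mul_le_mul_of_nonneg_left hnv0 ?_
        rw [e52]; positivity
      have h3 : R32 ≤ R32 * r⁻¹ := by
        have : 1 ≤ r⁻¹ := (one_le_inv₀ hr).mpr hr1
        nlinarith
      have h4 : R32 * n ≤ (R32 * r⁻¹) * n := mul_le_mul_of_nonneg_right h3 hn
      rw [e52] at h2 ⊢
      linarith
    calc C1 / k * (R52 * nv + R32 * n) ≤ C1 / k * ((CP + 1) * (R32 * r⁻¹) * n) := by gcongr
      _ = C1 * (CP + 1) * R32 * (k * r)⁻¹ * n := by
        rw [mul_inv]; field_simp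
  have t3 : |I1 - Ig| ≤ CW * CP * R32 * r32 * n := by
    refine b1.trans ?_
    calc CW * nv ≤ CW * (CP * n) := by gcongr
      _ = CW * CP * (R32 * r32) * n := by rw [e32]; ring
      _ = _ := by ring
  have hdec : I2 - σ * I1 = (I2 - Ib) + (Ib - σ * Ig) - σ * (I1 - Ig) := by ring
  have hσa : |σ| = 1 := by rcases hσ with h | h <;> simp [h]
  have hmain : I2 - σ * I1 ≤ C * R32 * ((k * r)⁻¹ + r32 + m + x) * n := by
    have h1 : I2 - Ib ≤ C2 * (1 + cs) * R32 * (m + x) * n := (le_abs_self _).trans t1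
    have h2 : Ib - σ * Ig ≤ C1 * (CP + 1) * R32 * (k * r)⁻¹ * n := (le_abs_self _).trans t2
    have h3 : - (σ * (I1 - Ig)) ≤ CW * CP * R32 * r32 * n := by
      refine (neg_le_abs _).trans ?_
      rw [abs_mul, hσa, one_mul]
      exact t3
    have a1 : C2 * (1 + cs) * R32 * (m + x) * n ≤ C * R32 * (m + x) * n := by
      gcongr
      rw [hC]; nlinarith [mul_pos hC1 (by linarith : 0 < CP + 1), mul_pos hCW hCP]
    have a2 : C1 * (CP + 1) * R32 * (k * r)⁻¹ * n ≤ C * R32 * (k * r)⁻¹ * n := by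
      gcongr
      rw [hC]; nlinarith [mul_pos hC2 (by linarith : 0 < 1 + cs), mul_pos hCW hCP]
    have a3 : CW * CP * R32 * r32 * n ≤ C * R32 * r32 * n := by
      gcongr
      rw [hC]; nlinarith [mul_pos hC2 (by linarith : 0 < 1 + cs), mul_pos hC1 (by linarith : 0 < CP + 1)]
    rw [hdec]
    have : C * R32 * ((k * r)⁻¹ + r32 + m + x) * n
        = C * R32 * (m + x) * n + C * R32 * (k * r)⁻¹ * n + C * R32 * r32 * n := by ring
    rw [this]
    linarith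
  have hF1 : F * (I2 - σ * I1) ≤ F * (C * R32 * ((k * r)⁻¹ + r32 + m + x) * n) :=
    mul_le_mul_of_nonneg_left hmain hF
  have h3 : - I3 ≤ C * (q * Rh + F ^ 2 * R72) * n + C * F * R3 * n ^ 2 := by
    refine (neg_le_abs _).trans (b4.trans ?_)
    rw [abs_of_nonneg hF]
    have hC4C : C4 ≤ C := by
      rw [hC]; nlinarith [mul_pos hC2 (by linarith : 0 < 1 + cs), mul_pos hC1 (by linarith : 0 < CP + 1), mul_pos hCW hCP]
    have h6 : C4 * 6 ≤ C := by
      rw [hC]; nlinarith [mul_pos hC2 (by linarith : 0 < 1 + cs), mul_pos hC1 (by linarith : 0 < CP + 1), mul_pos hCW hCP]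
    have a1 : C4 * (|F'| * Rh + F ^ 2 * R72) * n ≤ C * (q * Rh + F ^ 2 * R72) * n := by
      refine mul_le_mul_of_nonneg_right ?_ hn
      have u1 : C4 * (|F'| * Rh) ≤ C * (q * Rh) := by
        calc C4 * (|F'| * Rh) ≤ C4 * ((6 * q) * Rh) := by gcongr
          _ = (C4 * 6) * (q * Rh) := by ring
          _ ≤ C * (q * Rh) := by gcongr
      have u2 : C4 * (F ^ 2 * R72) ≤ C * (F ^ 2 * R72) := by gcongr
      linarith
    have a2 : C4 * F * R3 * n ^ 2 ≤ C * F * R3 * n ^ 2 := by gcongr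
    linarith
  rw [he]
  have : F * (I2 - σ * I1) = - σ * F * I1 + F * I2 := by ring
  linarith

end N273.MH
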